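import Mathlib
import Pool.Agent.R685.AiDef
import Pool.Agent.R685.AiComp
import Pool.Agent.R685.AiSound

/-! The ai-semirings `B2` and `B0` are both finitely based. -/

namespace Pool.Agent.Results.MP_c3354e_al.BrandtFinitelyBased

open Pool.Agent.R685.Ai Pool.Agent.R685.LangB

section transfer

variable {B : Type} [Add B] [Mul B]

theorem hyps (h : ∀ p ∈ E2, Holds B p.1 p.2) : Ai B ∧
    (∀ x y z v, okz x y z v = true → Holds B (zid x y z v).1 (zid x y z v).2) ∧
    (∀ x y z v, Holds B (cid x y z v).1 (cid x y z v).2) :=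
  ⟨ai_of (fun p hp => h p (Or.inl hp)), fun x y z v hk => h _ (Or.inr (Or.inl ⟨x, y, z, v, hk, rfl⟩)),
    fun x y z v => h _ (Or.inr (Or.inr ⟨x, y, z, v, rfl⟩))⟩

/-- agreement of `w` with the language at a colouring, from one value in `B2` -/
theorem agree_of {L : List ℕ → Prop} (hL : Rect L) {χ : List ℕ → Bool} (hχ : IsCol L χ)
    {s t : Term} (hst : s.eval (asg L χ) = t.eval (asg L χ)) (ht : ∀ u ∈ words t, L u)
    {w : List ℕ} (hw : w ∈ words s) : Agree L w χ := by
  intro u hu hu'
  have hval : ∀ v, L v → v ≠ [] → ev (asg L χ) v = some (enc (χ []) (χ u)) := by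
    intro v hv hv'
    obtain ⟨c, v', rfl⟩ := List.exists_cons_of_ne_nil hv'
    have h1 := ev_good hL hχ v' c [] ⟨[], by simpa using hv⟩
    rw [h1]
    have : Eqv L (c :: v') u := eqv_common hL (q := []) (by simpa using hv) (by simpa using hu)
    rw [List.nil_append, hχ _ _ this]
  have hne := enc_ne (χ []) (χ u)
  have h1 : t.eval (asg L χ) + enc (χ []) (χ u) = enc (χ []) (χ u) :=
    eval_le aiB2 _ t _ (fun v hv => ⟨_, hval v (ht v hv) (words_ne t v hv), flat_idem _⟩)
  have h2 := flat _ _ h1 hne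
  obtain ⟨x, hx, hx'⟩ := word_le aiB2 (asg L χ) s w hw
  rw [hst, h2] at hx'
  rw [hx, flat _ _ hx' hne]

theorem le_of_B2 (h : ∀ p ∈ E2, Holds B p.1 p.2) {s t : Term} (hst : Holds B2 s t)
    (f : ℕ → B) : s.eval f + t.eval f = t.eval f := by
  obtain ⟨hA, hz, hc⟩ := hyps h
  have hL := rectLa hA hz hc f (t.eval f)
  have ht : ∀ u ∈ words t, La f (t.eval f) u := fun u hu => Or.inl (word_le hA f t u hu)
  obtain ⟨u, hu⟩ := words_nonempty t
  refine eval_le hA f s _ (fun w hw => ?_)
  rw [← La_ne (words_ne s w hw)]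
  exact complete2 hL (words_ne s w hw) (ht u hu) (words_ne t u hu)
    (fun χ hχ => agree_of hL hχ (hst _) ht hw)

theorem sound_B2 (h : ∀ p ∈ E2, Holds B p.1 p.2) {s t : Term} (hst : Holds B2 s t) :
    Holds B s t := by
  intro f
  have hA := (hyps h).1
  have h1 := le_of_B2 h hst f
  have h2 := le_of_B2 h (s := t) (t := s) (fun g => (hst g).symm) f
  rw [← h1, hA.comm, h2]

theorem le_of_B0 (h : ∀ p ∈ E0, Holds B p.1 p.2) {s t : Term} (hst : Holds B0 s t)
    (f : ℕ → B) : s.eval f + t.eval f = t.eval f := by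
  obtain ⟨hA, hz, hc⟩ := hyps (fun p hp => h p (Or.inl hp))
  have hl : Holds B lid.1 lid.2 := h _ (Or.inr rfl)
  have hL := rectLa hA hz hc f (t.eval f)
  have hloop := loopLa hA hl f (t.eval f)
  have ht : ∀ u ∈ words t, La f (t.eval f) u := fun u hu => Or.inl (word_le hA f t u hu)
  obtain ⟨u, hu⟩ := words_nonempty t
  refine eval_le hA f s _ (fun w hw => ?_)
  rw [← La_ne (words_ne s w hw)]
  refine complete0 hL hloop (words_ne s w hw) (ht u hu) (words_ne t u hu)
    (fun χ hχ hm => agree_of hL hχ ?_ ht hw)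
  have hb : ∀ n, asg (La f (t.eval f)) χ n ≠ B2.b := by
    intro n hn
    unfold asg at hn
    cases hlab : lab (La f (t.eval f)) χ n with
    | none => rw [hlab] at hn; exact absurd hn (by decide)
    | some ij =>
      obtain ⟨i, j⟩ := ij
      rw [hlab] at hn
      obtain ⟨p, q, _, h1, h2⟩ := lab_some hlab
      have key : ∀ i j : Bool, enc i j = B2.b → i = true ∧ j = false := by decide
      obtain ⟨rfl, rfl⟩ := key i j hn
      have := hm p n h1
      rw [this] at h2
      exact absurd h2 (by decide)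
  have := congrArg Subtype.val (hst (fun n => ⟨asg (La f (t.eval f)) χ n, hb n⟩))
  rw [eval_B0, eval_B0] at this
  exact this

theorem sound_B0 (h : ∀ p ∈ E0, Holds B p.1 p.2) {s t : Term} (hst : Holds B0 s t) :
    Holds B s t := by
  intro f
  have hA := (hyps (fun p hp => h p (Or.inl hp))).1
  have h1 := le_of_B0 h hst f
  have h2 := le_of_B0 h (s := t) (t := s) (fun g => (hst g).symm) f
  rw [← h1, hA.comm, h2]

end transfer

section free

variable (E : Set (Term × Term))

/-- terms modulo derivability -/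
def Fr : Type := Quot (Derives E)

instance : Add (Fr E) := ⟨Quot.map₂ Term.add (fun a _ _ h => .add _ _ _ _ (.refl a) h)
  (fun _ _ b h => .add _ _ _ _ h (.refl b))⟩
instance : Mul (Fr E) := ⟨Quot.map₂ Term.mul (fun a _ _ h => .mul _ _ _ _ (.refl a) h)
  (fun _ _ b h => .mul _ _ _ _ h (.refl b))⟩

/-- the class of a term -/
def cl (t : Term) : Fr E := Quot.mk _ t

theorem fr_exact {s t : Term} (h : cl E s = cl E t) : Derives E s t := by
  have h1 : Relation.EqvGen (Derives E) s t := Quot.eqvGen_exact h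
  have he : Equivalence (Derives E) := ⟨.refl, .symm _ _, .trans _ _ _⟩
  exact he.eqvGen_iff.1 h1

theorem fr_eval (σ : ℕ → Term) (t : Term) :
    t.eval (fun n => cl E (σ n)) = cl E (t.subst σ) := by
  induction t with
  | var n => rfl
  | add s t hs ht => rw [Term.eval, hs, ht]; rfl
  | mul s t hs ht => rw [Term.eval, hs, ht]; rfl

theorem subst_var (t : Term) : t.subst Term.var = t := by
  induction t with
  | var n => rfl
  | add s t hs ht => rw [Term.subst, hs, ht]
  | mul s t hs ht => rw [Term.subst, hs, ht]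

theorem fr_holds : ∀ p ∈ E, Holds (Fr E) p.1 p.2 := by
  intro p hp f
  have hf : f = fun n => cl E ((f n).out) := by
    funext n
    exact (Quot.out_eq (f n)).symm
  rw [hf, fr_eval, fr_eval]
  exact Quot.sound (.ax p.1 p.2 _ hp)

theorem derives_of {s t : Term} (h : Holds (Fr E) s t) : Derives E s t := by
  have := h (fun n => cl E (.var n))
  rw [fr_eval, fr_eval, subst_var, subst_var] at this
  exact fr_exact E this

end free

/-- Both `B2` and `B0` are finitely based. -/
theorem result : FinitelyBased B2 ∧ FinitelyBased B0 :=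
  ⟨⟨E2, E2_finite, E2_B2, fun _ _ h => derives_of E2 (sound_B2 (fr_holds E2) h)⟩,
    ⟨E0, E0_finite, E0_B0, fun _ _ h => derives_of E0 (sound_B0 (fr_holds E0) h)⟩⟩

end Pool.Agent.Results.MP_c3354e_al.BrandtFinitelyBased
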